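import Pool.Agent.V11231.CES.Defs

/-!
# Cycles and ranks
-/

set_option autoImplicit false

namespace Pool.Agent.V11231.CES

open Pool.Agent.NPC

/-- If every element of a nonempty finite set has a successor in the set, there is a cycle. -/
theorem exists_cycle {α : Type} {S : Set α} (hS : S.Finite) (hne : S.Nonempty)
    {R : α → α → Prop} (hirr : ∀ a, ¬ R a a) (hsucc : ∀ a ∈ S, ∃ b ∈ S, R a b) :
    ∃ w : List α, 2 ≤ w.length ∧ w.Nodup ∧ (∀ a ∈ w, a ∈ S) ∧
      ∀ (i : ℕ) (a b : α), w[i]? = some a → w[(i + 1) % w.length]? = some b → R a b := by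
  classical
  haveI : Finite S := hS
  have h1 : ∀ a : S, ∃ b : S, R a b := fun a => by
    obtain ⟨b, hb, hR⟩ := hsucc a a.2
    exact ⟨⟨b, hb⟩, hR⟩
  choose f hf using h1
  obtain ⟨a0, ha0⟩ := hne
  obtain ⟨m, n, hmn, he⟩ := Finite.exists_ne_map_eq_of_infinite
    (fun n : ℕ => f^[n] (⟨a0, ha0⟩ : S))
  wlog hlt : m < n generalizing m n
  · exact this n m hmn.symm he.symm (by omega)
  set b : S := f^[m] ⟨a0, ha0⟩ with hb
  have hper : Function.IsPeriodicPt f (n - m) b := by
    unfold Function.IsPeriodicPt Function.IsFixedPt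
    rw [hb, ← Function.iterate_add_apply]
    have : n - m + m = n := by omega
    rw [this]
    exact he.symm
  have hpos : 0 < Function.minimalPeriod f b :=
    Function.IsPeriodicPt.minimalPeriod_pos (by omega) hper
  set k := Function.minimalPeriod f b with hk
  have hk1 : k ≠ 1 := by
    intro h
    have h2 : Function.IsFixedPt f b := by
      rw [← Function.minimalPeriod_eq_one_iff_isFixedPt, ← hk, h]
    have h3 := hf b
    rw [h2] at h3
    exact hirr _ h3
  refine ⟨(List.range k).map (fun i => ((f^[i] b : S) : α)), by simp; omega, ?_, ?_, ?_⟩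
  · refine List.Nodup.map_on ?_ List.nodup_range
    intro i hi j hj hij
    rw [List.mem_range] at hi hj
    have := Function.iterate_injOn_Iio_minimalPeriod (f := f) (x := b)
    exact this (by simpa [← hk] using hi) (by simpa [← hk] using hj) (Subtype.ext hij)
  · intro a ha
    rw [List.mem_map] at ha
    obtain ⟨i, _, rfl⟩ := ha
    exact (f^[i] b).2
  · intro i a b' h1 h2
    rw [List.length_map, List.length_range] at h2
    have hi : i < k := by
      by_contra h
      rw [List.getElem?_eq_none (by simp; omega)] at h1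
      simp at h1
    have hi' : (i + 1) % k < k := Nat.mod_lt _ hpos
    simp only [List.getElem?_map, List.getElem?_range hi, Option.map_some, Option.some.injEq] at h1
    simp only [List.getElem?_map, List.getElem?_range hi', Option.map_some,
      Option.some.injEq] at h2
    rw [← h1, ← h2, hk, Function.iterate_mod_minimalPeriod_eq, Function.iterate_succ_apply']
    exact hf _

/-- A rank function excludes cycles. -/
theorem no_cycle {α : Type} {R : α → α → Prop} {P : α → Prop} (r : α → ℕ)
    (h : ∀ a b, P a → P b → R a b → r b < r a) (w : List α) (hc : 2 ≤ w.length)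
    (hP : ∀ a ∈ w, P a) (hR : ∀ (i : ℕ) (a b : α), w[i]? = some a →
      w[(i + 1) % w.length]? = some b → R a b) : False := by
  have hne : (Finset.range w.length).Nonempty := ⟨0, by simp; omega⟩
  obtain ⟨i, hi, hmin⟩ := Finset.exists_min_image (Finset.range w.length)
    (fun i => (w[i]?.map r).getD 0) hne
  rw [Finset.mem_range] at hi
  have hi' : (i + 1) % w.length < w.length := Nat.mod_lt _ (by omega)
  have h1 := hR i w[i] w[(i + 1) % w.length] (List.getElem?_eq_getElem hi)
    (List.getElem?_eq_getElem hi')
  have h2 := h _ _ (hP _ (List.getElem_mem hi)) (hP _ (List.getElem_mem hi')) h1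
  have h3 := hmin _ (Finset.mem_range.2 hi')
  simp only [List.getElem?_eq_getElem hi, List.getElem?_eq_getElem hi', Option.map_some,
    Option.getD_some] at h3
  omega

/-- A relation without cycles in a finite set has a rank function. -/
theorem exists_rank {α : Type} {S : Finset α} {R : α → α → Prop} (hirr : ∀ a, ¬ R a a)
    (hno : ∀ w : List α, 2 ≤ w.length → w.Nodup → (∀ a ∈ w, a ∈ S) →
      ¬ ∀ (i : ℕ) (a b : α), w[i]? = some a → w[(i + 1) % w.length]? = some b → R a b) :
    ∃ r : α → ℕ, (∀ a, r a ≤ S.card) ∧ ∀ a ∈ S, ∀ b ∈ S, R a b → r b < r a := by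
  classical
  let R' : α → α → Prop := fun a b => a ∈ S ∧ b ∈ S ∧ R a b
  have hirr' : ∀ a, ¬ Relation.TransGen R' a a := by
    intro a ha
    let U : Set α := {b | b ∈ S ∧ Relation.TransGen R' b a ∧ Relation.TransGen R' a b}
    have hmem : ∀ {x y : α}, Relation.TransGen R' x y → x ∈ S := by
      intro x y h
      obtain ⟨z, hz, _⟩ := Relation.TransGen.head'_iff.1 h
      exact hz.1
    have hU : U.Finite := S.finite_toSet.subset fun b hb => hb.1
    obtain ⟨c, h1, h2, h3, h4⟩ := exists_cycle hU ⟨a, hmem ha, ha, ha⟩ hirr (R := R) (by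
      rintro b ⟨hb, hba, hab⟩
      obtain ⟨d, hd, hda⟩ := Relation.TransGen.head'_iff.1 hba
      refine ⟨d, ⟨hd.2.1, ?_, hab.tail hd⟩, hd.2.2⟩
      rcases Relation.reflTransGen_iff_eq_or_transGen.1 hda with h | h
      · subst h; exact ha
      · exact h)
    exact hno c h1 h2 (fun a ha => (h3 a ha).1) h4
  refine ⟨fun a => (S.filter fun b => Relation.TransGen R' a b).card,
    fun a => Finset.card_filter_le _ _, ?_⟩
  intro a ha b hb hab
  apply Finset.card_lt_card
  rw [Finset.ssubset_iff_of_subset]
  · exact ⟨b, by simp [hb, Relation.TransGen.single (show R' a b from ⟨ha, hb, hab⟩)],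
      by simp [hirr' b]⟩
  · intro c hc
    rw [Finset.mem_filter] at hc ⊢
    exact ⟨hc.1, Relation.TransGen.head ⟨ha, hb, hab⟩ hc.2⟩

/-! ### Sorting by keys -/

/-- the numbers below `n`, sorted by the key -/
def blist (n : ℕ) (key : ℕ → ℕ) : List ℕ :=
  (List.range 5).flatMap (fun κ => (List.range n).filter (fun y => decide (key y = κ)))

theorem mem_blist {n : ℕ} {key : ℕ → ℕ} (hk : ∀ y, key y < 5) (y : ℕ) :
    y ∈ blist n key ↔ y < n := by
  unfold blist
  simp only [List.mem_flatMap, List.mem_range, List.mem_filter, decide_eq_true_eq]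
  constructor
  · rintro ⟨κ, -, h, -⟩
    exact h
  · intro h
    exact ⟨key y, hk y, h, rfl⟩

theorem blist_nodup (n : ℕ) (key : ℕ → ℕ) : (blist n key).Nodup := by
  unfold blist
  rw [List.nodup_flatMap]
  refine ⟨fun κ _ => List.Nodup.filter _ List.nodup_range, ?_⟩
  refine List.Pairwise.imp ?_ (List.nodup_range (n := 5))
  intro a b hab y hy hy'
  simp only [List.mem_filter, decide_eq_true_eq] at hy hy'
  exact hab (hy.2.symm.trans hy'.2)

theorem blist_perm {n : ℕ} {key : ℕ → ℕ} (hk : ∀ y, key y < 5) :
    (blist n key).Perm (List.range n) := by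
  rw [List.perm_ext_iff_of_nodup (blist_nodup n key) List.nodup_range]
  intro y
  rw [mem_blist hk, List.mem_range]

theorem blist_sorted (n : ℕ) (key : ℕ → ℕ) :
    (blist n key).Pairwise (fun a b => key a ≤ key b) := by
  unfold blist
  rw [List.pairwise_flatMap]
  refine ⟨fun κ _ => ?_, ?_⟩
  · rw [List.pairwise_iff_forall_sublist]
    intro a b hab
    have ha := hab.subset (show a ∈ [a, b] by simp)
    have hb := hab.subset (show b ∈ [a, b] by simp)
    simp only [List.mem_filter, decide_eq_true_eq] at ha hb
    rw [ha.2, hb.2]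
  · refine List.Pairwise.imp ?_ (List.pairwise_lt_range (n := 5))
    intro a b hab x hx y hy
    simp only [List.mem_filter, decide_eq_true_eq] at hx hy
    rw [hx.2, hy.2]
    exact hab.le

theorem blist_idx {n : ℕ} {key : ℕ → ℕ} (hk : ∀ y, key y < 5) {y z : ℕ} (hy : y < n)
    (hz : z < n) (h : key y < key z) : (blist n key).idxOf y < (blist n key).idxOf z := by
  have hy' := (mem_blist (n := n) hk y).2 hy
  have hz' := (mem_blist (n := n) hk z).2 hz
  by_contra hcon
  rw [not_lt] at hcon
  have h1 := List.idxOf_lt_length_of_mem hy'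
  have h2 := List.idxOf_lt_length_of_mem hz'
  rcases hcon.eq_or_lt with h3 | h3
  · have := (List.idxOf_inj hz').1 h3
    rw [this] at h
    exact lt_irrefl _ h
  · have h4 := List.pairwise_iff_getElem.1 (blist_sorted n key) _ _ h2 h1 h3
    rw [List.getElem_idxOf, List.getElem_idxOf] at h4
    omega

theorem key_le_of_idx {n : ℕ} {key : ℕ → ℕ} (hk : ∀ y, key y < 5) {y z : ℕ} (hy : y < n)
    (hz : z < n) (h : (blist n key).idxOf y < (blist n key).idxOf z) : key y ≤ key z := by
  by_contra hcon
  have := blist_idx hk hz hy (not_le.1 hcon)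
  omega

/-! ### Matchings -/

section
variable {n : ℕ} {M : List ℕ} (hM : M.Perm (List.range n))
include hM

theorem partner_fst (a : Ag) : (partner M a).1 = !a.1 := by
  rcases a with ⟨b, i⟩
  cases b <;> simp [partner]

theorem partner_lt {a : Ag} (ha : a.2 < n) : (partner M a).2 < n := by
  have hl : M.length = n := by simpa using hM.length_eq
  rcases a with ⟨b, i⟩
  cases b with
  | true =>
    simp only [partner, if_true]
    have hi : i < M.length := by rw [hl]; exact ha
    rw [List.getD_eq_getElem _ _ hi]
    have := hM.subset (List.getElem_mem hi)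
    simpa using this
  | false =>
    simp only [partner, Bool.false_eq_true, if_false]
    rw [← hl]
    refine List.idxOf_lt_length_of_mem ?_
    rw [hM.mem_iff]
    simpa using ha

theorem partner_partner {a : Ag} (ha : a.2 < n) : partner M (partner M a) = a := by
  have hl : M.length = n := by simpa using hM.length_eq
  have hnd : M.Nodup := hM.nodup_iff.2 List.nodup_range
  rcases a with ⟨b, i⟩
  cases b with
  | true =>
    simp only [partner, if_true, Bool.false_eq_true, if_false]
    have hi : i < M.length := by rw [hl]; exact ha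
    rw [List.getD_eq_getElem _ _ hi, hnd.idxOf_getElem]
  | false =>
    simp only [partner, if_true, Bool.false_eq_true, if_false]
    have hmem : i ∈ M := by
      rw [hM.mem_iff]
      simpa using ha
    have h1 := List.idxOf_lt_length_of_mem hmem
    rw [List.getD_eq_getElem _ _ h1, List.getElem_idxOf]

theorem partner_inj {a b : Ag} (ha : a.2 < n) (hb : b.2 < n) (h : partner M a = partner M b) :
    a = b := by
  rw [← partner_partner hM ha, ← partner_partner hM hb, h]

end

end Pool.Agent.V11231.CES
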