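import Pool.Agent.V11231.CES.Red

/-!
# The reduction from 3SAT: completeness
-/

set_option autoImplicit false

namespace Pool.Agent.V11231.CES

open Pool.Agent.NPC

section

variable (φ : F3) (T : ℕ → Bool)

/-- the partner in the matching given by the states -/
def mt (u : ℕ) : ℕ := if T (u / 2) = true then (if u % 2 = 0 then u + 1 else u - 1) else u

theorem mt_div (u : ℕ) : mt T u / 2 = u / 2 := by
  unfold mt; split_ifs <;> omega

theorem mt_mt (u : ℕ) : mt T (mt T u) = u := by
  have h := mt_div T u
  by_cases hT : T (u / 2) = true
  · have hT' : T (mt T u / 2) = true := by rw [h]; exact hT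
    rw [mt, if_pos hT']
    unfold mt
    rw [if_pos hT]
    split_ifs <;> omega
  · have hT' : ¬ T (mt T u / 2) = true := by rw [h]; exact hT
    rw [mt, if_neg hT', mt, if_neg hT]

theorem mt_lt {u : ℕ} (hu : u < nn φ) : mt T u < nn φ := by
  unfold nn at *
  unfold mt
  split_ifs <;> omega

/-- the matching given by the states -/
def mtch : List ℕ := (List.range (nn φ)).map (mt T)

theorem mtch_perm : (mtch φ T).Perm (List.range (nn φ)) := by
  rw [List.perm_ext_iff_of_nodup ?_ List.nodup_range]
  · intro v
    simp only [mtch, List.mem_map, List.mem_range]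
    constructor
    · rintro ⟨u, hu, rfl⟩
      exact mt_lt φ T hu
    · intro hv
      exact ⟨mt T v, mt_lt φ T hv, mt_mt T v⟩
  · refine List.Nodup.map ?_ List.nodup_range
    intro u v h
    rw [← mt_mt T u, ← mt_mt T v, h]

theorem partner_man {u : ℕ} (hu : u < nn φ) : partner (mtch φ T) (true, u) = (false, mt T u) := by
  simp only [partner, if_true, mtch]
  rw [List.getD_eq_getElem _ _ (by simpa using hu)]
  simp

theorem partner_woman {u : ℕ} (hu : u < nn φ) :
    partner (mtch φ T) (false, u) = (true, mt T u) := by
  have h1 := mt_lt φ T hu
  have h2 := partner_man φ T h1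
  rw [mt_mt] at h2
  rw [← h2, partner_partner (mtch_perm φ T) h1]

/-- the rank -/
def rk (a : Ag) : ℕ :=
  if a.1 = true then
    (if T (a.2 / 2) = true then (if a.2 % 2 = 0 then 0 else 1)
      else (if a.2 % 2 = 0 then (if T (nx (a.2 / 2)) = true then 2 else 3) else 0))
  else (if T (a.2 / 2) = true then (if a.2 % 2 = 0 then 2 else 0) else
    (if a.2 % 2 = 0 then 0 else 1))

theorem of_mkey_zero {u v : ℕ} (h : mkey u v ≤ 0) : v = 2 * (u / 2) + 1 := by
  unfold mkey at h; split_ifs at h <;> omega

theorem of_mkey_two {u v : ℕ} (h : mkey u v ≤ 2) :
    v / 2 = u / 2 ∨ (u % 2 = 0 ∧ v % 2 = 0 ∧ v / 2 = nx (u / 2)) := by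
  unfold mkey at h; split_ifs at h <;> tauto

theorem of_wkey_zero {u v : ℕ} (h : wkey φ u v ≤ 0) : v = 2 * (u / 2) := by
  unfold wkey at h; split_ifs at h <;> omega

theorem of_wkey_two {u v : ℕ} (h : wkey φ u v ≤ 2) :
    v / 2 = u / 2 ∨ (u % 2 = 0 ∧ v % 2 = 1 ∧ conf φ (u / 2) (v / 2) = true) := by
  unfold wkey at h; split_ifs at h <;> tauto

theorem rk_lt (hT : ∀ i < 3 * φ.length, T i = true ∨ T (nx i) = true ∨ T (nx (nx i)) = true)
    (hc : ∀ i j, conf φ i j = true → ¬ (T i = true ∧ T j = true)) (a b : Ag) (ha : a.2 < nn φ)
    (hb : b.2 < nn φ) (h : Prefers (inst φ) a (partner (mtch φ T) b) (partner (mtch φ T) a)) :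
    rk T b < rk T a := by
  have hM := mtch_perm φ T
  have hab : a.1 = b.1 := by
    have := h.1
    rw [partner_fst hM] at this
    revert this
    cases a.1 <;> cases b.1 <;> simp
  have hk := key_of_prefers ha (partner_lt hM hb) (partner_lt hM ha)
    (by rw [partner_fst hM, hab]) (partner_fst hM a) h
  have hne : (partner (mtch φ T) b).2 ≠ (partner (mtch φ T) a).2 := by
    intro h'
    have := h.2.2
    rw [h'] at this
    exact lt_irrefl _ this
  rcases a with ⟨s, u⟩
  rcases b with ⟨s', w⟩
  simp only at ha hb hab
  subst hab
  cases s with
  | true =>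
    rw [partner_man φ T ha, partner_man φ T hb] at hk hne
    simp only [key, if_true] at hk hne
    have hw := mt_div T w
    by_cases hTu : T (u / 2) = true
    · by_cases hu : u % 2 = 0
      · have e : mt T u = u + 1 := by rw [mt, if_pos hTu, if_pos hu]
        have e' : mkey u (mt T u) = 0 := by
          rw [e]; unfold mkey; split_ifs <;> omega
        rw [e'] at hk
        have := of_mkey_zero hk
        omega
      · have e : mt T u = u - 1 := by rw [mt, if_pos hTu, if_neg hu]
        have e' : mkey u (mt T u) = 2 := by
          rw [e]; unfold mkey; split_ifs <;> omega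
        rw [e'] at hk
        have h1 := of_mkey_two hk
        have h2 : mt T w / 2 = u / 2 := by omega
        have h3 : w / 2 = u / 2 := by omega
        have hTw : T (w / 2) = true := by rw [h3]; exact hTu
        have hw2 : w % 2 = 0 := by
          by_contra hcon
          have : mt T w = w - 1 := by rw [mt, if_pos hTw, if_neg hcon]
          omega
        simp only [rk, if_true, hTu, hTw, hw2, if_neg hu]
        omega
    · by_cases hu : u % 2 = 0
      · have e : mt T u = u := by rw [mt, if_neg hTu]
        have e' : mkey u (mt T u) = 2 := by
          rw [e]; unfold mkey; split_ifs <;> omega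
        rw [e'] at hk
        rcases of_mkey_two hk with h1 | ⟨-, h1, h2⟩
        · have h3 : w / 2 = u / 2 := by omega
          have hTw : ¬ T (w / 2) = true := by rw [h3]; exact hTu
          have hw2 : ¬ w % 2 = 0 := by
            intro hcon
            have : mt T w = w := by rw [mt, if_neg hTw]
            omega
          have er : rk T (true, w) = 0 := by
            simp only [rk, if_true, if_neg hTw, if_neg hw2]
          rw [er]
          simp only [rk, if_true, if_neg hTu, if_pos hu]
          split_ifs <;> omega
        · rw [hw] at h2
          by_cases hTn : T (nx (u / 2)) = true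
          · have hTw : T (w / 2) = true := by rw [h2]; exact hTn
            have hw2 : ¬ w % 2 = 0 := by
              intro hcon
              have : mt T w = w + 1 := by rw [mt, if_pos hTw, if_pos hcon]
              omega
            simp only [rk, if_true, if_neg hTu, if_pos hu, hTw, if_neg hw2, hTn]
            omega
          · have hTw : ¬ T (w / 2) = true := by rw [h2]; exact hTn
            have hw2 : w % 2 = 0 := by
              have : mt T w = w := by rw [mt, if_neg hTw]
              omega
            have hTnn : T (nx (w / 2)) = true := by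
              have hi : u / 2 < 3 * φ.length := by unfold nn at ha; omega
              rcases hT _ hi with g | g | g
              · exact absurd g hTu
              · exact absurd g hTn
              · rw [h2]; exact g
            simp only [rk, if_true, if_neg hTu, if_pos hu, if_neg hTw, if_pos hw2, if_neg hTn,
              if_pos hTnn]
            omega
      · have e : mt T u = u := by rw [mt, if_neg hTu]
        have e' : mkey u (mt T u) = 0 := by
          rw [e]; unfold mkey; split_ifs <;> omega
        rw [e'] at hk
        have := of_mkey_zero hk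
        omega
  | false =>
    rw [partner_woman φ T ha, partner_woman φ T hb] at hk hne
    simp only [key, Bool.false_eq_true, if_false] at hk hne
    have hw := mt_div T w
    by_cases hTu : T (u / 2) = true
    · by_cases hu : u % 2 = 0
      · have e : mt T u = u + 1 := by rw [mt, if_pos hTu, if_pos hu]
        have e' : wkey φ u (mt T u) = 2 := by
          rw [e]; unfold wkey; split_ifs <;> omega
        rw [e'] at hk
        rcases of_wkey_two φ hk with h1 | ⟨-, h1, h2⟩
        · have h3 : w / 2 = u / 2 := by omega
          have hTw : T (w / 2) = true := by rw [h3]; exact hTu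
          have hw2 : ¬ w % 2 = 0 := by
            intro hcon
            have : mt T w = w + 1 := by rw [mt, if_pos hTw, if_pos hcon]
            omega
          have er : rk T (false, w) = 0 := by
            simp only [rk, Bool.false_eq_true, if_false, if_pos hTw, if_neg hw2]
          rw [er]
          simp only [rk, Bool.false_eq_true, if_false, if_pos hTu, if_pos hu]
          omega
        · rw [hw] at h2
          have hTw : ¬ T (w / 2) = true := fun g => hc _ _ h2 ⟨hTu, g⟩
          have hw2 : ¬ w % 2 = 0 := by
            have : mt T w = w := by rw [mt, if_neg hTw]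
            omega
          simp only [rk, Bool.false_eq_true, if_false, if_pos hTu, if_pos hu, if_neg hTw,
            if_neg hw2]
          omega
      · have e : mt T u = u - 1 := by rw [mt, if_pos hTu, if_neg hu]
        have e' : wkey φ u (mt T u) = 0 := by
          rw [e]; unfold wkey; split_ifs <;> omega
        rw [e'] at hk
        have := of_wkey_zero φ hk
        omega
    · by_cases hu : u % 2 = 0
      · have e : mt T u = u := by rw [mt, if_neg hTu]
        have e' : wkey φ u (mt T u) = 0 := by
          rw [e]; unfold wkey; split_ifs <;> omega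
        rw [e'] at hk
        have := of_wkey_zero φ hk
        omega
      · have e : mt T u = u := by rw [mt, if_neg hTu]
        have e' : wkey φ u (mt T u) = 2 := by
          rw [e]; unfold wkey; split_ifs <;> omega
        rw [e'] at hk
        have h1 := of_wkey_two φ hk
        have h2 : mt T w / 2 = u / 2 := by omega
        have h3 : w / 2 = u / 2 := by omega
        have hTw : ¬ T (w / 2) = true := by rw [h3]; exact hTu
        have hw2 : w % 2 = 0 := by
          by_contra hcon
          have : mt T w = w := by rw [mt, if_neg hTw]
          omega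
        simp only [rk, Bool.false_eq_true, if_false, if_neg hTu, if_neg hTw, hw2, if_neg hu,
          if_true]
        omega

end

theorem complete {φ : F3} (h : SAT3 φ) : ∃ M, CoalitionExchangeStable (inst φ) M := by
  obtain ⟨τ, hτ⟩ := h
  let T : ℕ → Bool := fun i => decide (τ (lit φ i).2 = (lit φ i).1)
  refine ⟨mtch φ T, by rw [IsMatching, inst_length]; exact mtch_perm φ T, ?_⟩
  rintro w ⟨h1, -, h3, h4⟩
  have key3 : ∀ k < φ.length, ∃ s < 3, T (3 * k + s) = true := by
    intro k hk
    have hl : ∀ s, (3 * k + s) / 3 = k + s / 3 := fun s => by omega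
    rcases hτ φ[k] (List.getElem_mem hk) with g | g | g
    · refine ⟨0, by omega, decide_eq_true ?_⟩
      have e : lit φ (3 * k + 0) = φ[k].1 := by
        rw [lit, if_pos (by omega), hl, List.getD_eq_getElem _ _ (by simpa using hk)]
        simp
      rw [e]; exact g
    · refine ⟨1, by omega, decide_eq_true ?_⟩
      have e : lit φ (3 * k + 1) = φ[k].2.1 := by
        rw [lit, if_neg (by omega), if_pos (by omega), hl,
          List.getD_eq_getElem _ _ (by simpa using hk)]
        simp
      rw [e]; exact g
    · refine ⟨2, by omega, decide_eq_true ?_⟩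
      have e : lit φ (3 * k + 2) = φ[k].2.2 := by
        rw [lit, if_neg (by omega), if_neg (by omega), hl,
          List.getD_eq_getElem _ _ (by simpa using hk)]
        simp
      rw [e]; exact g
  refine no_cycle (R := fun a b => Prefers (inst φ) a (partner (mtch φ T) b)
    (partner (mtch φ T) a)) (P := fun a => a.2 < nn φ) (rk T) (rk_lt φ T ?_ ?_) w h1
    (fun a ha => by rw [← inst_length]; exact h3 a ha) h4
  · intro i hi
    obtain ⟨s, hs, hTs⟩ := key3 (i / 3) (by omega)
    have hcase : 3 * (i / 3) + s = i ∨ 3 * (i / 3) + s = nx i ∨ 3 * (i / 3) + s = nx (nx i) := by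
      unfold nx; omega
    rcases hcase with g | g | g <;> rw [g] at hTs
    · exact Or.inl hTs
    · exact Or.inr (Or.inl hTs)
    · exact Or.inr (Or.inr hTs)
  · rintro i j hij ⟨h5, h6⟩
    simp only [conf, Bool.and_eq_true, decide_eq_true_eq, Bool.not_eq_true',
      decide_eq_false_iff_not] at hij
    have h5' := of_decide_eq_true h5
    have h6' := of_decide_eq_true h6
    rw [← hij.1, h5'] at h6'
    exact hij.2 h6'

theorem red_iff (φ : F3) : SAT3 φ ↔ ∃ M, CoalitionExchangeStable (inst φ) M := by
  constructor
  · exact complete
  · rintro ⟨M, hM, hno⟩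
    rw [IsMatching, inst_length] at hM
    exact sound hM hno

end Pool.Agent.V11231.CES
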