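import Pool.Agent.NPC.Dec
import Pool.Agent.NPC.Sat2
import Pool.Agent.H671R2.PolyAuto

/-!
# Coalition-exchange-stable matchings: definitions
-/

set_option autoImplicit false

namespace Pool.Agent.V11231.CES

open Pool.Agent.NPC

/-- An agent: `(true, i)` is the man with number `i`, `(false, i)` is the woman with number `i`. -/
abbrev Ag : Type := Bool × ℕ

/-- The preference lists of the men and of the women; the entries are the numbers of the agents of
the opposite sex, the best first. -/
abbrev Prefs : Type := List (List ℕ) × List (List ℕ)

/-- `I` is an instance of the stable marriage problem, of size `n = I.1.length`: there are `n` men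
and `n` women, and each preference list is a permutation of `0, …, n - 1`. -/
def IsInst (I : Prefs) : Prop :=
  I.2.length = I.1.length ∧ (∀ l ∈ I.1, l.Perm (List.range I.1.length)) ∧
    ∀ l ∈ I.2, l.Perm (List.range I.1.length)

/-- The preference list of an agent. -/
def plist (I : Prefs) (a : Ag) : List ℕ := (if a.1 then I.1 else I.2).getD a.2 []

/-- The agent `a` strictly prefers `b` to `c` (`b` and `c` are of the sex opposite to that
of `a`). -/
def Prefers (I : Prefs) (a b c : Ag) : Prop :=
  a.1 ≠ b.1 ∧ a.1 ≠ c.1 ∧ (plist I a).idxOf b.2 < (plist I a).idxOf c.2

/-- A matching between the `n` men and the `n` women, given by the list of the women matched with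
the men `0, …, n - 1`: a permutation of `0, …, n - 1`. -/
def IsMatching (I : Prefs) (M : List ℕ) : Prop := M.Perm (List.range I.1.length)

/-- The partner of an agent. -/
def partner (M : List ℕ) (a : Ag) : Ag := if a.1 then (false, M.getD a.2 0) else (true, M.idxOf a.2)

/-- An exchange-blocking coalition of `M`: a sequence of `k ≥ 2` distinct agents, each of which
strictly prefers the partner of the next one (cyclically) to its own partner. -/
def Coalition (I : Prefs) (M : List ℕ) (l : List Ag) : Prop :=
  2 ≤ l.length ∧ l.Nodup ∧ (∀ a ∈ l, a.2 < I.1.length) ∧
    ∀ (i : ℕ) (a b : Ag), l[i]? = some a → l[(i + 1) % l.length]? = some b →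
      Prefers I a (partner M b) (partner M a)

/-- `M` is a coalition-exchange-stable matching. -/
def CoalitionExchangeStable (I : Prefs) (M : List ℕ) : Prop :=
  IsMatching I M ∧ ∀ l, ¬ Coalition I M l

/-- The decision problem: `I` is an instance which has a coalition-exchange-stable matching. -/
def CES (I : Prefs) : Prop := IsInst I ∧ ∃ M, CoalitionExchangeStable I M

end Pool.Agent.V11231.CES
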