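import Pool.Agent.V11231.CES.Comp
import Pool.Agent.V11231.Util

/-!
# Coalition-exchange-stable matchings: polynomial time, membership in NP, the theorem
-/

set_option autoImplicit false

namespace Pool.Agent.V11231.CES

open Pool.Agent.NPC Pool.Agent.V11231.Util

section poly

variable {α : Type} [TEnc α]

@[fun_prop]
theorem lit_poly {f : α → F3} {i : α → ℕ} (hf : Poly f) (hi : Poly i) :
    Poly (fun a => lit (f a) (i a)) := by
  unfold lit
  have h : Poly (fun a => (f a).getD (i a / 3) ((true, 0), (true, 0), (true, 0))) :=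
    NPC.Poly.getD hf (by fun_prop) (NPC.Poly.const _)
  fun_prop

@[fun_prop]
theorem conf_poly {f : α → F3} {i j : α → ℕ} (hf : Poly f) (hi : Poly i) (hj : Poly j) :
    Poly (fun a => conf (f a) (i a) (j a)) := by
  unfold conf
  fun_prop

@[fun_prop]
theorem mkey_poly {i j : α → ℕ} (hi : Poly i) (hj : Poly j) :
    Poly (fun a => mkey (i a) (j a)) := by
  unfold mkey nx
  fun_prop

@[fun_prop]
theorem wkey_poly {f : α → F3} {i j : α → ℕ} (hf : Poly f) (hi : Poly i) (hj : Poly j) :
    Poly (fun a => wkey (f a) (i a) (j a)) := by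
  unfold wkey pv
  fun_prop

theorem nn_uPoly : UPoly nn := UPoly.mul (UPoly.const 6) (UPoly.length NPC.Poly.id)

@[fun_prop]
theorem range_nn_poly {f : α → F3} (hf : Poly f) : Poly (fun a => List.range (nn (f a))) :=
  (nn_uPoly.comp hf).range

@[fun_prop]
theorem mlist_poly {f : α → F3} {u : α → ℕ} (hf : Poly f) (hu : Poly u) :
    Poly (fun a => blist (nn (f a)) (mkey (u a))) := by
  unfold blist
  fun_prop

@[fun_prop]
theorem wlist_poly {f : α → F3} {u : α → ℕ} (hf : Poly f) (hu : Poly u) :
    Poly (fun a => blist (nn (f a)) (wkey (f a) (u a))) := by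
  unfold blist
  fun_prop

theorem inst_poly : Poly inst := by
  unfold inst
  fun_prop

end poly

/-! ### Membership in NP -/

/-- the test of a certificate: a matching and ranks of the men and of the women -/
def chk (p : Prefs × (List ℕ × (List ℕ × List ℕ))) : Bool :=
  decide (p.1.2.length = p.1.1.length) && p.1.1.all (fun l => isPermB p.1.1 l) &&
    p.1.2.all (fun l => isPermB p.1.1 l) && isPermB p.1.1 p.2.1 &&
    ((rg p.1.1).all fun u => (rg p.1.1).all fun w =>
      !(decide ((p.1.1.getD u []).idxOf (p.2.1.getD w 0) <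
        (p.1.1.getD u []).idxOf (p.2.1.getD u 0))) ||
        decide (p.2.2.1.getD w 0 < p.2.2.1.getD u 0)) &&
    ((rg p.1.1).all fun u => (rg p.1.1).all fun w =>
      !(decide ((p.1.2.getD u []).idxOf (p.2.1.idxOf w) <
        (p.1.2.getD u []).idxOf (p.2.1.idxOf u))) ||
        decide (p.2.2.2.getD w 0 < p.2.2.2.getD u 0))

theorem chk_poly : Poly chk := by
  unfold chk
  fun_prop

/-- envy -/
def Envies (I : Prefs) (M : List ℕ) (a b : Ag) : Prop := Prefers I a (partner M b) (partner M a)

theorem envies_man {I : Prefs} {M : List ℕ} (u w : ℕ) : Envies I M (true, u) (true, w) ↔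
    (I.1.getD u []).idxOf (M.getD w 0) < (I.1.getD u []).idxOf (M.getD u 0) := by
  simp [Envies, Prefers, partner, plist]

theorem envies_woman {I : Prefs} {M : List ℕ} (u w : ℕ) : Envies I M (false, u) (false, w) ↔
    (I.2.getD u []).idxOf (M.idxOf w) < (I.2.getD u []).idxOf (M.idxOf u) := by
  simp [Envies, Prefers, partner, plist]

theorem envies_sex {I : Prefs} {M : List ℕ} {a b : Ag} (h : Envies I M a b) : a.1 = b.1 := by
  have h1 := h.1
  rcases a with ⟨s, u⟩
  rcases b with ⟨s', w⟩
  cases s <;> cases s' <;> simp [partner] at h1 ⊢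

theorem chk_iff {I : Prefs} {M rm rw : List ℕ} : chk (I, (M, (rm, rw))) = true ↔
    IsInst I ∧ IsMatching I M ∧ ∀ a b : Ag, a.2 < I.1.length → b.2 < I.1.length →
      Envies I M a b → (if b.1 then rm else rw).getD b.2 0 < (if a.1 then rm else rw).getD a.2 0 := by
  unfold chk IsInst IsMatching
  simp only [Bool.and_eq_true, decide_eq_true_eq, List.all_eq_true, isPermB_iff, rg,
    List.mem_range, Bool.or_eq_true, Bool.not_eq_true', decide_eq_false_iff_not]
  constructor
  · rintro ⟨⟨⟨⟨⟨h1, h2⟩, h3⟩, h4⟩, h5⟩, h6⟩
    refine ⟨⟨h1, h2, h3⟩, h4, ?_⟩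
    intro a b ha hb hab
    have hs := envies_sex hab
    rcases a with ⟨s, u⟩
    rcases b with ⟨s', w⟩
    simp only at hs ha hb
    subst hs
    cases s with
    | true =>
      rw [envies_man] at hab
      rcases h5 u ha w hb with h | h
      · exact absurd hab h
      · simpa using h
    | false =>
      rw [envies_woman] at hab
      rcases h6 u ha w hb with h | h
      · exact absurd hab h
      · simpa using h
  · rintro ⟨⟨h1, h2, h3⟩, h4, h5⟩
    refine ⟨⟨⟨⟨⟨h1, h2⟩, h3⟩, h4⟩, ?_⟩, ?_⟩
    · intro u hu w hw
      by_cases h : Envies I M (true, u) (true, w)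
      · exact Or.inr (by simpa using h5 _ _ hu hw h)
      · exact Or.inl (by rwa [envies_man] at h)
    · intro u hu w hw
      by_cases h : Envies I M (false, u) (false, w)
      · exact Or.inr (by simpa using h5 _ _ hu hw h)
      · exact Or.inl (by rwa [envies_woman] at h)

theorem mem_np : InNP (lang CES) := by
  refine inNPP_of chk_poly (100 * (Polynomial.X + 1) ^ 2) ?_
  intro I
  constructor
  · rintro ⟨hI, M, hM, hno⟩
    let S : Finset Ag := Finset.univ ×ˢ Finset.range I.1.length
    obtain ⟨r, hr1, hr2⟩ := exists_rank (S := S) (R := Envies I M) (fun a h => lt_irrefl _ h.2.2)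
      (fun w h2 hnd hS hR => hno w ⟨h2, hnd, fun a ha => by
        have := hS a ha
        simpa [S] using this, hR⟩)
    have hcard : S.card = 2 * I.1.length := by simp [S]
    refine ⟨(M, ((List.range I.1.length).map (fun u => r (true, u)),
      (List.range I.1.length).map (fun u => r (false, u)))), ?_, ?_⟩
    · have hn := length_lt_sz I.1
      have hn' : sz I.1 < sz I := by
        rcases I with ⟨I1, I2⟩
        simp only [sz_pair]
        omega
      have hl : M.length = I.1.length := by simpa using hM.length_eq
      have b1 : sz M ≤ M.length * (4 * I.1.length + 1 + 1) + 1 := by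
        refine sz_le_length_mul _ _ fun x hx => ?_
        have h1 := hM.subset hx
        rw [List.mem_range] at h1
        have h2 := sz_nat_le' x
        omega
      have b2 : ∀ s : Bool, sz ((List.range I.1.length).map (fun u => r (s, u))) ≤
          I.1.length * (8 * I.1.length + 1 + 1) + 1 := by
        intro s
        have := sz_le_length_mul ((List.range I.1.length).map (fun u => r (s, u)))
          (8 * I.1.length + 1) (fun x hx => by
            rw [List.mem_map] at hx
            obtain ⟨u, _, rfl⟩ := hx
            have h1 := hr1 (s, u)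
            have h2 := sz_nat_le' (r (s, u))
            omega)
        simpa using this
      have b3 := b2 true
      have b4 := b2 false
      rw [hl] at b1
      simp only [sz_pair, Polynomial.eval_mul, Polynomial.eval_pow, Polynomial.eval_add,
        Polynomial.eval_X, Polynomial.eval_one, Polynomial.eval_ofNat]
      nlinarith
    · rw [chk_iff]
      refine ⟨hI, hM, ?_⟩
      intro a b ha hb hab
      have hget : ∀ c : Ag, c.2 < I.1.length → (if c.1 then (List.range I.1.length).map
          (fun u => r (true, u)) else (List.range I.1.length).map (fun u => r (false, u))).getD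
            c.2 0 = r c := by
        rintro ⟨s, u⟩ hu
        simp only at hu
        cases s
        · simp only [Bool.false_eq_true, if_false]
          rw [List.getD_eq_getElem _ _ (by simpa using hu)]
          simp
        · simp only [if_true]
          rw [List.getD_eq_getElem _ _ (by simpa using hu)]
          simp
      rw [hget a ha, hget b hb]
      exact hr2 a (by simp [S, ha]) b (by simp [S, hb]) hab
  · rintro ⟨⟨M, rm, rw'⟩, -, h⟩
    rw [chk_iff] at h
    obtain ⟨h1, h2, h3⟩ := h
    refine ⟨h1, M, h2, ?_⟩
    rintro w ⟨g1, -, g3, g4⟩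
    exact no_cycle (R := Envies I M) (P := fun a => a.2 < I.1.length)
      (fun a => (if a.1 then rm else rw').getD a.2 0) (fun a b ha hb => h3 a b ha hb) w g1 g3 g4

/-! ### Hardness -/

theorem hardPr : HardPr IsInst (fun I => ∃ M, CoalitionExchangeStable I M) :=
  hardI_SAT3.toHardPr.trans inst_poly (fun φ _ => isInst φ) (fun φ _ => red_iff φ)

theorem hardI : HardI CES :=
  hardI_SAT3.trans inst_poly (fun φ => by
    rw [red_iff]
    exact ⟨fun h => ⟨isInst φ, h⟩, fun h => h.2⟩)

/-- the algorithm `A` solves the search problem -/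
def Solves (A : List Bool → List Bool) : Prop :=
  ∀ I : Prefs, IsInst I →
    (∃ M, CoalitionExchangeStable I M ∧ A (bits I) = bits (some M)) ∨
    ((¬ ∃ M, CoalitionExchangeStable I M) ∧ A (bits I) = bits (none : Option (List ℕ)))

theorem search_hard {A : List Bool → List Bool} (hA : PolyTime A) (h : Solves A) :
    ∀ L : Set (List Bool), InNP L → InP L := by
  intro L hL
  obtain ⟨f, hf, hI, hfL⟩ := hardPr L hL
  have hf' : PolyTime (fun x => bits (f x)) := PC.toPolyTime hf
  refine ⟨fun x => [!decide (A (bits (f x)) = bits (none : Option (List ℕ)))], ?_, ?_⟩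
  · refine polyTime_test (F := fun x => A (bits (f x)))
      (g := fun y => !decide (y = bits (none : Option (List ℕ))))
      (H642R2.TMSim.polyTime_comp hA hf') ?_
    fun_prop
  · intro x
    rw [hfL x]
    rcases h (f x) (hI x) with ⟨M, hM, hA'⟩ | ⟨hM, hA'⟩
    · have : bits (some M) ≠ bits (none : Option (List ℕ)) := fun h => by
        have := bits_injective h
        simp at this
      simp only [hA', this, decide_false, Bool.not_false, iff_true]
      exact ⟨M, hM⟩
    · simp only [hA', decide_true, Bool.not_true, List.cons.injEq, Bool.false_eq_true, and_true,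
        iff_false]
      exact hM

theorem main : (∀ L : Set (List Bool), InNP L → ∃ f : List Bool → Prefs,
      PolyTime (fun x => bits (f x)) ∧ (∀ x, IsInst (f x)) ∧
      ∀ x, x ∈ L ↔ ∃ M, CoalitionExchangeStable (f x) M) ∧
    (NPHard (lang CES) ∧ InNP (lang CES)) ∧
    ((∃ A, PolyTime A ∧ Solves A) → ∀ L : Set (List Bool), InNP L → InP L) := by
  refine ⟨?_, ⟨hardI.toNPHardP, mem_np⟩, fun ⟨A, h1, h2⟩ => search_hard h1 h2⟩
  intro L hL
  obtain ⟨f, h1, h2, h3⟩ := hardPr L hL
  exact ⟨f, PC.toPolyTime h1, h2, h3⟩

end Pool.Agent.V11231.CES
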