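import Pool.Agent.V11231.CES.Comb

/-!
# The reduction from 3SAT
-/

set_option autoImplicit false

namespace Pool.Agent.V11231.CES

open Pool.Agent.NPC

/-- formulas -/
abbrev F3 : Type := List (Lit ℕ × Lit ℕ × Lit ℕ)

/-- the literal at the position `i` (position `i % 3` of clause `i / 3`) -/
def lit (φ : F3) (i : ℕ) : Lit ℕ :=
  if i % 3 = 0 then (φ.getD (i / 3) ((true, 0), (true, 0), (true, 0))).1
  else if i % 3 = 1 then (φ.getD (i / 3) ((true, 0), (true, 0), (true, 0))).2.1
  else (φ.getD (i / 3) ((true, 0), (true, 0), (true, 0))).2.2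

/-- opposite literals -/
def conf (φ : F3) (i j : ℕ) : Bool :=
  decide ((lit φ i).2 = (lit φ j).2) && !decide ((lit φ i).1 = (lit φ j).1)

/-- the next position in the clause -/
def nx (i : ℕ) : ℕ := 3 * (i / 3) + (i + 1) % 3

/-- the previous position in the clause -/
def pv (i : ℕ) : ℕ := 3 * (i / 3) + (i + 2) % 3

/-- the rough rank of the woman `v` for the man `u` -/
def mkey (u v : ℕ) : ℕ :=
  if v / 2 = u / 2 then (if v % 2 = 1 then 0 else 2)
  else if u % 2 = 0 ∧ v % 2 = 0 ∧ v / 2 = nx (u / 2) then 1 else 3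

/-- the rough rank of the man `v` for the woman `u` -/
def wkey (φ : F3) (u v : ℕ) : ℕ :=
  if v / 2 = u / 2 then (if v % 2 = 0 then 0 else 2)
  else if u % 2 = 0 ∧ v % 2 = 1 ∧ conf φ (u / 2) (v / 2) = true then 1
  else if u % 2 = 0 ∧ v % 2 = 0 ∧ v / 2 = pv (u / 2) then 4 else 3

theorem mkey_lt (u v : ℕ) : mkey u v < 5 := by
  unfold mkey; split_ifs <;> omega

theorem wkey_lt (φ : F3) (u v : ℕ) : wkey φ u v < 5 := by
  unfold wkey; split_ifs <;> omega

theorem nx_ne (i : ℕ) : nx i ≠ i := by
  unfold nx; omega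

theorem pv_nx (i : ℕ) : pv (nx i) = i := by
  unfold nx pv; omega

theorem mkey_le_two {u v : ℕ} (h : v / 2 = u / 2) : mkey u v ≤ 2 := by
  unfold mkey; rw [if_pos h]; split_ifs <;> omega

theorem mkey_ge_three {u v : ℕ} (h : v / 2 ≠ u / 2)
    (h' : ¬ (u % 2 = 0 ∧ v % 2 = 0 ∧ v / 2 = nx (u / 2))) : 3 ≤ mkey u v := by
  unfold mkey; rw [if_neg h, if_neg h']

theorem mkey_nx (i : ℕ) : mkey (2 * i) (2 * nx i) = 1 := by
  have h := nx_ne i
  have e1 : 2 * nx i / 2 = nx i := by omega
  have e2 : 2 * i / 2 = i := by omega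
  have h1 : ¬ 2 * nx i / 2 = 2 * i / 2 := by omega
  unfold mkey
  rw [if_neg h1, if_pos ⟨by omega, by omega, by rw [e1, e2]⟩]

theorem mkey_XA (i : ℕ) : mkey (2 * i) (2 * i) = 2 := by
  unfold mkey; split_ifs <;> omega

theorem mkey_XB (i : ℕ) : mkey (2 * i) (2 * i + 1) = 0 := by
  unfold mkey; split_ifs <;> omega

theorem mkey_YA (i : ℕ) : mkey (2 * i + 1) (2 * i) = 2 := by
  unfold mkey; split_ifs <;> omega

theorem mkey_YB (i : ℕ) : mkey (2 * i + 1) (2 * i + 1) = 0 := by
  unfold mkey; split_ifs <;> omega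

theorem wkey_AX (φ : F3) (i : ℕ) : wkey φ (2 * i) (2 * i) = 0 := by
  unfold wkey; split_ifs <;> omega

theorem wkey_AY (φ : F3) (i : ℕ) : wkey φ (2 * i) (2 * i + 1) = 2 := by
  unfold wkey; split_ifs <;> omega

theorem wkey_BX (φ : F3) (i : ℕ) : wkey φ (2 * i + 1) (2 * i) = 0 := by
  unfold wkey; split_ifs <;> omega

theorem wkey_BY (φ : F3) (i : ℕ) : wkey φ (2 * i + 1) (2 * i + 1) = 2 := by
  unfold wkey; split_ifs <;> omega

theorem wkey_conf {φ : F3} {i j : ℕ} (h : conf φ i j = true) :
    wkey φ (2 * i) (2 * j + 1) = 1 := by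
  have hne : j ≠ i := by
    rintro rfl
    simp [conf] at h
  have e1 : 2 * i / 2 = i := by omega
  have e2 : (2 * j + 1) / 2 = j := by omega
  unfold wkey
  rw [e1, e2, if_neg hne, if_pos ⟨by omega, by omega, h⟩]

theorem wkey_pv (φ : F3) (i : ℕ) : wkey φ (2 * nx i) (2 * i) = 4 := by
  have h := nx_ne i
  have e1 : 2 * nx i / 2 = nx i := by omega
  have e2 : 2 * i / 2 = i := by omega
  have hp := pv_nx i
  unfold wkey
  rw [e1, e2, if_neg (Ne.symm h), if_neg (fun h' => by omega),
    if_pos ⟨by omega, by omega, hp.symm⟩]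

theorem wkey_pos (φ : F3) {i v : ℕ} (h : v ≠ 2 * i) : 0 < wkey φ (2 * i) v := by
  unfold wkey; split_ifs <;> omega

theorem wkey_lt4 (φ : F3) {i v : ℕ} (h : v ≠ 2 * pv i) : wkey φ (2 * i) v < 4 := by
  have e1 : 2 * i / 2 = i := by omega
  have h' : ¬ (2 * i % 2 = 0 ∧ v % 2 = 0 ∧ v / 2 = pv i) := by
    rintro ⟨_, h1, h2⟩
    omega
  unfold wkey
  rw [e1, if_neg h']
  split_ifs <;> omega

/-- the number of men -/
def nn (φ : F3) : ℕ := 6 * φ.length

/-- the instance -/
def inst (φ : F3) : Prefs :=
  ((List.range (nn φ)).map fun u => blist (nn φ) (mkey u),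
    (List.range (nn φ)).map fun u => blist (nn φ) (wkey φ u))

theorem inst_length (φ : F3) : (inst φ).1.length = nn φ := by simp [inst]

theorem isInst (φ : F3) : IsInst (inst φ) := by
  refine ⟨by simp [inst], ?_, ?_⟩
  · intro l hl
    rw [inst_length]
    simp only [inst, List.mem_map] at hl
    obtain ⟨u, _, rfl⟩ := hl
    exact blist_perm (mkey_lt u)
  · intro l hl
    rw [inst_length]
    simp only [inst, List.mem_map] at hl
    obtain ⟨u, _, rfl⟩ := hl
    exact blist_perm (wkey_lt φ u)

/-- the rough rank -/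
def key (φ : F3) (a b : Ag) : ℕ := if a.1 then mkey a.2 b.2 else wkey φ a.2 b.2

theorem plist_inst (φ : F3) {a : Ag} (ha : a.2 < nn φ) :
    plist (inst φ) a = blist (nn φ) (fun v => key φ a (!a.1, v)) := by
  rcases a with ⟨b, i⟩
  cases b
  · simp only [plist, Bool.false_eq_true, if_false, key, inst]
    rw [List.getD_eq_getElem _ _ (by simpa using ha)]
    simp
  · simp only [plist, if_true, key, inst]
    rw [List.getD_eq_getElem _ _ (by simpa using ha)]
    simp

theorem key_lt (φ : F3) (a b : Ag) : key φ a b < 5 := by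
  unfold key; split_ifs
  · exact mkey_lt _ _
  · exact wkey_lt _ _ _

theorem prefers_of_key {φ : F3} {a b c : Ag} (ha : a.2 < nn φ) (hb : b.2 < nn φ)
    (hc : c.2 < nn φ) (hab : b.1 = !a.1) (hac : c.1 = !a.1) (h : key φ a b < key φ a c) :
    Prefers (inst φ) a b c := by
  refine ⟨by rw [hab]; cases a.1 <;> simp, by rw [hac]; cases a.1 <;> simp, ?_⟩
  rw [plist_inst φ ha]
  refine blist_idx (fun y => key_lt _ _ _) hb hc ?_
  rcases b with ⟨b1, b2⟩
  rcases c with ⟨c1, c2⟩
  simp only at hab hac
  subst hab hac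
  exact h

theorem key_of_prefers {φ : F3} {a b c : Ag} (ha : a.2 < nn φ) (hb : b.2 < nn φ)
    (hc : c.2 < nn φ) (hab : b.1 = !a.1) (hac : c.1 = !a.1)
    (h : Prefers (inst φ) a b c) : key φ a b ≤ key φ a c := by
  obtain ⟨_, _, h⟩ := h
  rw [plist_inst φ ha] at h
  have := key_le_of_idx (fun y => key_lt _ _ _) hb hc h
  rcases b with ⟨b1, b2⟩
  rcases c with ⟨c1, c2⟩
  simp only at hab hac
  subst hab hac
  exact this

/-! ### Soundness -/

section sound

variable {φ : F3} {M : List ℕ} (hM : M.Perm (List.range (nn φ)))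
  (hno : ∀ w, ¬ Coalition (inst φ) M w)
include hM hno

/-- envy, seen through the keys -/
def Env (φ : F3) (M : List ℕ) (a b : Ag) : Prop :=
  a.1 = b.1 ∧ a.2 < nn φ ∧ b.2 < nn φ ∧ key φ a (partner M b) < key φ a (partner M a)

omit hno in
theorem Env.prefers {a b : Ag} (h : Env φ M a b) :
    Prefers (inst φ) a (partner M b) (partner M a) := by
  obtain ⟨h1, h2, h3, h4⟩ := h
  exact prefers_of_key h2 (partner_lt hM h3) (partner_lt hM h2)
    (by rw [partner_fst hM, h1]) (partner_fst hM a) h4

theorem no_env (w : List Ag) (h2 : 2 ≤ w.length) (hnd : w.Nodup) (hR : ∀ (i : ℕ) (a b : Ag),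
    w[i]? = some a → w[(i + 1) % w.length]? = some b → Env φ M a b) : False := by
  refine hno w ⟨h2, hnd, ?_, fun i a b ha hb => (hR i a b ha hb).prefers hM⟩
  intro a ha
  obtain ⟨i, hi, rfl⟩ := List.mem_iff_getElem.1 ha
  have := hR i w[i] (w[(i + 1) % w.length]'(Nat.mod_lt _ (by omega)))
    (List.getElem?_eq_getElem hi) (List.getElem?_eq_getElem _)
  rw [inst_length]
  exact this.2.1

theorem no_two {a b : Ag} (hab : Env φ M a b) (hba : Env φ M b a) : False := by
  by_cases h : a = b
  · subst h
    exact lt_irrefl _ hab.2.2.2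
  · refine no_env hM hno [a, b] (by simp) (by simp [h]) ?_
    intro i x y hx hy
    match i with
    | 0 => simp at hx hy; subst hx hy; exact hab
    | 1 => simp at hx hy; subst hx hy; exact hba
    | i + 2 => simp at hx

theorem no_three {a b c : Ag} (hab : Env φ M a b) (hbc : Env φ M b c) (hca : Env φ M c a) :
    False := by
  by_cases h1 : a = b
  · subst h1
    exact lt_irrefl _ hab.2.2.2
  by_cases h2 : b = c
  · subst h2
    exact lt_irrefl _ hbc.2.2.2
  by_cases h3 : c = a
  · subst h3
    exact lt_irrefl _ hca.2.2.2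
  refine no_env hM hno [a, b, c] (by simp) (by simp [h1, h2, Ne.symm h3]) ?_
  intro i x y hx hy
  match i with
  | 0 => simp at hx hy; subst hx hy; exact hab
  | 1 => simp at hx hy; subst hx hy; exact hbc
  | 2 => simp at hx hy; subst hx hy; exact hca
  | i + 3 => simp at hx

omit hM hno in
theorem nx_lt {i : ℕ} (hi : i < 3 * φ.length) : nx i < 3 * φ.length := by
  unfold nx; omega

/-- (1) the man `x i` is not matched with the woman `a (nx i)` -/
theorem claim1 {i : ℕ} (hi : i < 3 * φ.length) : partner M (true, 2 * i) ≠ (false, 2 * nx i) := by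
  intro h
  have hj := nx_lt hi
  have hne := nx_ne i
  have hlt : 2 * i < nn φ := by unfold nn; omega
  have hlt' : 2 * nx i < nn φ := by unfold nn; omega
  have h' : partner M (false, 2 * nx i) = (true, 2 * i) := by
    rw [← h, partner_partner hM hlt]
  have hne' : partner M (false, 2 * i) ≠ (true, 2 * i) := by
    intro h3
    have h4 := partner_inj hM (a := (false, 2 * i)) (b := (false, 2 * nx i)) hlt hlt'
      (h3.trans h'.symm)
    simp only [Prod.mk.injEq, true_and] at h4
    omega
  obtain ⟨v, hv⟩ : ∃ v, partner M (false, 2 * i) = (true, v) :=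
    ⟨_, Prod.ext (by rw [partner_fst hM]; rfl) rfl⟩
  have hv' : v ≠ 2 * i := fun h4 => hne' (by rw [hv, h4])
  refine no_two hM hno (a := (false, 2 * i)) (b := (false, 2 * nx i))
    ⟨rfl, hlt, hlt', ?_⟩ ⟨rfl, hlt', hlt, ?_⟩
  · rw [h', hv]
    simp only [key, Bool.false_eq_true, if_false, wkey_AX]
    exact wkey_pos φ hv'
  · rw [h', hv]
    simp only [key, Bool.false_eq_true, if_false, wkey_pv]
    exact wkey_lt4 φ (by rw [pv_nx]; exact hv')

/-- (2) every man is matched inside his gadget -/
theorem claim2 {u : ℕ} (hu : u < nn φ) : (partner M (true, u)).2 / 2 = u / 2 := by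
  by_contra hcon
  let S : Set Ag := {a | a.1 = true ∧ a.2 < nn φ ∧ (partner M a).2 / 2 ≠ a.2 / 2}
  have hS : S.Finite := by
    refine Set.Finite.subset ((Finset.univ ×ˢ Finset.range (nn φ) : Finset Ag).finite_toSet) ?_
    rintro ⟨b, i⟩ ⟨_, h2, _⟩
    simp only [Finset.coe_product, Finset.coe_univ, Finset.coe_range, Set.mem_prod, Set.mem_univ,
      Set.mem_Iio, true_and]
    exact h2
  obtain ⟨w, h1, h2, _, h4⟩ := exists_cycle hS ⟨(true, u), rfl, hu, hcon⟩ (R := Env φ M)
    (fun a ha => lt_irrefl _ ha.2.2.2) (by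
    rintro ⟨a1, a2⟩ ⟨h1, h2, h3⟩
    simp only at h1 h2 h3
    subst h1
    set i := a2 / 2 with hi
    have hi' : i < 3 * φ.length := by unfold nn at h2; omega
    have hA : 2 * i < nn φ := by unfold nn; omega
    have hB : 2 * i + 1 < nn φ := by unfold nn; omega
    have hA' := partner_lt hM (a := (false, 2 * i)) hA
    have hB' := partner_lt hM (a := (false, 2 * i + 1)) hB
    -- a woman of the gadget matched outside
    obtain ⟨v, hv, hvi, hvo⟩ : ∃ v < nn φ, v / 2 = i ∧ (partner M (false, v)).2 / 2 ≠ i := by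
      by_contra hc
      push Not at hc
      have c1 := hc (2 * i) hA (by omega)
      have c2 := hc (2 * i + 1) hB (by omega)
      have c3 : (partner M (false, 2 * i)).2 ≠ (partner M (false, 2 * i + 1)).2 := by
        intro h
        have := partner_inj hM (a := (false, 2 * i)) (b := (false, 2 * i + 1)) hA hB
          (Prod.ext (by rw [partner_fst hM, partner_fst hM]) h)
        simp at this
      have c4 : (partner M (false, 2 * i)).2 = a2 ∨ (partner M (false, 2 * i + 1)).2 = a2 := by
        omega
      rcases c4 with c4 | c4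
      · have e : partner M (false, 2 * i) = (true, a2) :=
          Prod.ext (by rw [partner_fst hM]; rfl) c4
        have e' : partner M (true, a2) = (false, 2 * i) := by rw [← e, partner_partner hM hA]
        rw [e'] at h3
        simp only at h3
        omega
      · have e : partner M (false, 2 * i + 1) = (true, a2) :=
          Prod.ext (by rw [partner_fst hM]; rfl) c4
        have e' : partner M (true, a2) = (false, 2 * i + 1) := by rw [← e, partner_partner hM hB]
        rw [e'] at h3
        simp only at h3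
        omega
    have hb1 : (partner M (false, v)).1 = true := by rw [partner_fst hM]; rfl
    have hb2 := partner_lt hM (a := (false, v)) hv
    have hbb : partner M (partner M (false, v)) = (false, v) := partner_partner hM hv
    refine ⟨partner M (false, v), ⟨hb1, hb2, ?_⟩, hb1.symm, h2, hb2, ?_⟩
    · rw [hbb]
      simp only
      omega
    · rw [hbb]
      obtain ⟨z, hz⟩ : ∃ z, partner M (true, a2) = (false, z) :=
        ⟨_, Prod.ext (by rw [partner_fst hM]; rfl) rfl⟩
      rw [hz] at h3 ⊢
      simp only at h3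
      have hz1 : ¬ (a2 % 2 = 0 ∧ z % 2 = 0 ∧ z / 2 = nx (a2 / 2)) := by
        rintro ⟨g1, g2, g3⟩
        rw [← hi] at g3
        refine claim1 hM hno hi' ?_
        have e1 : 2 * i = a2 := by omega
        have e2 : z = 2 * nx i := by omega
        rw [e1, hz, e2]
      simp only [key, if_true]
      have k1 := mkey_le_two (u := a2) (v := v) (by omega)
      have k2 := mkey_ge_three (u := a2) (v := z) h3 hz1
      omega)
  exact no_env hM hno w h1 h2 h4

theorem inside_woman {u : ℕ} (hu : u < nn φ) : (partner M (false, u)).2 / 2 = u / 2 := by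
  have h1 := partner_lt hM (a := (false, u)) hu
  have h2 : partner M (false, u) = (true, (partner M (false, u)).2) :=
    Prod.ext (by rw [partner_fst hM]; rfl) rfl
  have h3 := claim2 hM hno h1
  rw [← h2, partner_partner hM hu] at h3
  exact h3.symm

/-- the state of a gadget -/
theorem state {i : ℕ} (hi : i < 3 * φ.length) :
    (partner M (true, 2 * i) = (false, 2 * i + 1) ∧ partner M (true, 2 * i + 1) = (false, 2 * i) ∧
      partner M (false, 2 * i) = (true, 2 * i + 1) ∧ partner M (false, 2 * i + 1) = (true, 2 * i)) ∨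
    (partner M (true, 2 * i) = (false, 2 * i) ∧
      partner M (true, 2 * i + 1) = (false, 2 * i + 1) ∧
      partner M (false, 2 * i) = (true, 2 * i) ∧
      partner M (false, 2 * i + 1) = (true, 2 * i + 1)) := by
  have hA : 2 * i < nn φ := by unfold nn; omega
  have hB : 2 * i + 1 < nn φ := by unfold nn; omega
  have h1 := claim2 hM hno hA
  have h2 := claim2 hM hno hB
  have e1 : partner M (true, 2 * i) = (false, (partner M (true, 2 * i)).2) :=
    Prod.ext (by rw [partner_fst hM]; rfl) rfl
  have e2 : partner M (true, 2 * i + 1) = (false, (partner M (true, 2 * i + 1)).2) :=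
    Prod.ext (by rw [partner_fst hM]; rfl) rfl
  have h3 : (partner M (true, 2 * i)).2 ≠ (partner M (true, 2 * i + 1)).2 := by
    intro h
    have := partner_inj hM (a := (true, 2 * i)) (b := (true, 2 * i + 1)) hA hB
      (by rw [e1, e2, h])
    simp at this
  generalize hx : (partner M (true, 2 * i)).2 = x at *
  generalize hy : (partner M (true, 2 * i + 1)).2 = y at *
  have h4 : (x = 2 * i + 1 ∧ y = 2 * i) ∨ (x = 2 * i ∧ y = 2 * i + 1) := by omega
  rcases h4 with ⟨rfl, rfl⟩ | ⟨rfl, rfl⟩
  · left
    refine ⟨e1, e2, ?_, ?_⟩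
    · rw [← e2, partner_partner hM hB]
    · rw [← e1, partner_partner hM hA]
  · right
    refine ⟨e1, e2, ?_, ?_⟩
    · rw [← e1, partner_partner hM hA]
    · rw [← e2, partner_partner hM hB]

/-- no clause is false -/
theorem clause_true {k : ℕ} (hk : k < φ.length) :
    ∃ i, i / 3 = k ∧ partner M (true, 2 * i) = (false, 2 * i + 1) := by
  by_contra hcon
  push Not at hcon
  have hst : ∀ i, i / 3 = k → partner M (true, 2 * i) = (false, 2 * i) := by
    intro i hi
    rcases state hM hno (i := i) (by omega) with h | h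
    · exact absurd h.1 (hcon i hi)
    · exact h.1
  have env : ∀ i, i / 3 = k → Env φ M (true, 2 * i) (true, 2 * nx i) := by
    intro i hi
    have hn : nx i / 3 = k := by unfold nx; omega
    have hn' : nx i < 3 * φ.length := by omega
    have hne := nx_ne i
    refine ⟨rfl, by unfold nn; simp only; omega, by unfold nn; simp only; omega, ?_⟩
    rw [hst i hi, hst (nx i) hn]
    simp only [key, if_true, mkey_nx, mkey_XA]
    omega
  have e0 := env (3 * k) (by omega)
  have e1 := env (3 * k + 1) (by omega)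
  have e2 := env (3 * k + 2) (by omega)
  have n0 : nx (3 * k) = 3 * k + 1 := by unfold nx; omega
  have n1 : nx (3 * k + 1) = 3 * k + 2 := by unfold nx; omega
  have n2 : nx (3 * k + 2) = 3 * k := by unfold nx; omega
  rw [n0] at e0
  rw [n1] at e1
  rw [n2] at e2
  exact no_three hM hno e0 e1 e2

/-- opposite literals are not both true -/
theorem conf_false {i j : ℕ} (hi : i < 3 * φ.length) (hj : j < 3 * φ.length)
    (hij : conf φ i j = true) (h1 : partner M (true, 2 * i) = (false, 2 * i + 1))
    (h2 : partner M (true, 2 * j) = (false, 2 * j + 1)) : False := by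
  have key : ∀ i j : ℕ, i < 3 * φ.length → j < 3 * φ.length → conf φ i j = true →
      partner M (true, 2 * i) = (false, 2 * i + 1) →
      partner M (true, 2 * j) = (false, 2 * j + 1) → Env φ M (false, 2 * i) (false, 2 * j) := by
    intro i j hi hj hij h1 h2
    have hne : j ≠ i := by
      rintro rfl
      simp [conf] at hij
    refine ⟨rfl, by unfold nn; simp only; omega, by unfold nn; simp only; omega, ?_⟩
    have s1 : partner M (false, 2 * i) = (true, 2 * i + 1) := by
      rcases state hM hno hi with h | h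
      · exact h.2.2.1
      · rw [h.1] at h1; simp at h1
    have s2 : partner M (false, 2 * j) = (true, 2 * j + 1) := by
      rcases state hM hno hj with h | h
      · exact h.2.2.1
      · rw [h.1] at h2; simp at h2
    rw [s1, s2]
    simp only [CES.key, Bool.false_eq_true, if_false, wkey_conf hij, wkey_AY]
    omega
  have hji : conf φ j i = true := by
    simp only [conf, Bool.and_eq_true, decide_eq_true_eq, Bool.not_eq_true',
      decide_eq_false_iff_not] at hij ⊢
    exact ⟨hij.1.symm, fun h => hij.2 h.symm⟩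
  exact no_two hM hno (key i j hi hj hij h1 h2) (key j i hj hi hji h2 h1)

theorem sound : SAT3 φ := by
  classical
  refine ⟨fun v => decide (∃ i < 3 * φ.length, partner M (true, 2 * i) = (false, 2 * i + 1) ∧
    lit φ i = (true, v)), ?_⟩
  intro c hc
  obtain ⟨k, hk, rfl⟩ := List.mem_iff_getElem.1 hc
  obtain ⟨i, hi, hT⟩ := clause_true hM hno hk
  have hi' : i < 3 * φ.length := by omega
  have hlit : ∀ l : Lit ℕ, lit φ i = l → (decide (∃ i < 3 * φ.length,
      partner M (true, 2 * i) = (false, 2 * i + 1) ∧ lit φ i = (true, l.2))) = l.1 := by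
    rintro ⟨s, v⟩ hl
    cases s with
    | true => exact decide_eq_true ⟨i, hi', hT, hl⟩
    | false =>
      refine decide_eq_false ?_
      rintro ⟨j, hj, hTj, hlj⟩
      refine conf_false hM hno hi' hj ?_ hT hTj
      simp [conf, hl, hlj]
  have hmod : i % 3 = 0 ∨ i % 3 = 1 ∨ i % 3 = 2 := by omega
  rcases hmod with h | h | h
  · left
    exact hlit _ (by rw [lit, if_pos h, hi, List.getD_eq_getElem _ _ hk])
  · right; left
    exact hlit _ (by rw [lit, if_neg (by omega), if_pos h, hi, List.getD_eq_getElem _ _ hk])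
  · right; right
    exact hlit _ (by rw [lit, if_neg (by omega), if_neg (by omega), hi,
      List.getD_eq_getElem _ _ hk])

end sound

end Pool.Agent.V11231.CES
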